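import Pool.Agent.H33.NFA.A

/-!
# NFA: from finite sets of pairs to the sum of the `Sel2` (row SUMA)
-/

set_option autoImplicit false

namespace Pool.NFA

open Polynomial Matrix NumberField IsDedekindDomain Pool.HYP Pool.TOW Pool.AVS Pool.T1 Pool.NF

section Core

variable {R : Type} [CommRing R] {K : Type} [Field K] [Algebra R K]

/-- If `s ^ 2 * v = u` with units `u`, `v`, then `u` and `v` have the same class. -/
theorem mk_eq_of_sq {g : K[X]} {u v : (AdjoinRoot g)ˣ} {a : AdjoinRoot g}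
    (h : (u : AdjoinRoot g) = v * a ^ 2) :
    (QuotientGroup.mk u : (AdjoinRoot g)ˣ ⧸ Sq2 g) = QuotientGroup.mk v := by
  have h1 : a ^ 2 = ((v⁻¹ * u : (AdjoinRoot g)ˣ) : AdjoinRoot g) := by
    rw [Units.val_mul, h, ← mul_assoc, Units.inv_mul, one_mul]
  have h2 : IsUnit a := by
    have h3 : IsUnit (a ^ 2) := by rw [h1]; exact Units.isUnit _
    exact (isUnit_pow_iff (by norm_num)).1 h3
  obtain ⟨w, hw⟩ := h2
  have h4 : w ^ 2 = v⁻¹ * u := by
    apply Units.ext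
    rw [Units.val_pow_eq_pow_val, hw, h1]
  symm
  rw [QuotientGroup.eq]
  exact ⟨w, h4⟩

/-- A nontrivial element of `Sel2` has a representative. -/
theorem exists_ntr {g : K[X]} {ξ : (AdjoinRoot g)ˣ ⧸ Sq2 g} (hξ : ξ ∈ Sel2 g) (h1 : ξ ≠ 1) :
    ∃ p : K[X], Ntr g p ∧ ∃ u : (AdjoinRoot g)ˣ,
      (QuotientGroup.mk u : (AdjoinRoot g)ˣ ⧸ Sq2 g) = ξ ∧ AdjoinRoot.mk g p = u := by
  obtain ⟨u, p, hu, hp, hn, hl⟩ := hξ
  refine ⟨p, ⟨?_, hn, hl, ?_⟩, u, hu, hp⟩
  · obtain ⟨q, hq⟩ := AdjoinRoot.mk_surjective ((u⁻¹ : (AdjoinRoot g)ˣ) : AdjoinRoot g)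
    have h2 : AdjoinRoot.mk g (p * q) = AdjoinRoot.mk g 1 := by
      rw [map_mul, hq, hp, Units.mul_inv, map_one]
    rw [AdjoinRoot.mk_eq_mk] at h2
    obtain ⟨c, hc⟩ := h2
    exact ⟨q, -c, by linear_combination hc⟩
  · rintro ⟨s, hs⟩
    apply h1
    rw [← hu]
    have h3 : (u : AdjoinRoot g) = ((1 : (AdjoinRoot g)ˣ) : AdjoinRoot g) *
        (AdjoinRoot.mk g s) ^ 2 := by
      rw [Units.val_one, one_mul, ← hp, ← map_pow, AdjoinRoot.mk_eq_mk]
      exact hs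
    rw [mk_eq_of_sq h3]
    rfl

/-- The core of SUMA, for every ring `R` and every field `K` over it. -/
theorem suma_core (F : Set R[X]) (M : ℝ) (hF : F.Finite)
    (h : ∀ A : Finset (R[X] × K[X]),
      (∀ z ∈ A, z.1 ∈ F ∧ Irreducible (fk K z.1) ∧ Ntr (fk K z.1) z.2) →
      (∀ z ∈ A, ∀ w ∈ A, z.1 = w.1 → (∃ s : K[X], fk K z.1 ∣ z.2 - w.2 * s ^ 2) → z = w) →
      (A.card : ℝ) ≤ M) :
    (∀ f ∈ F, Irreducible (fk K f) → (Sel2 (fk K f)).Finite) ∧
    ∑ᶠ f ∈ {f ∈ F | Irreducible (fk K f)}, ((Sel2 (fk K f)).ncard : ℝ) ≤ M + F.ncard := by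
  classical
  -- the representatives
  have hrep : ∀ (f : R[X]) (ξ : (AdjoinRoot (fk K f))ˣ ⧸ Sq2 (fk K f)), ∃ p : K[X],
      ξ ∈ Sel2 (fk K f) → ξ ≠ 1 → Ntr (fk K f) p ∧ ∃ u : (AdjoinRoot (fk K f))ˣ,
        (QuotientGroup.mk u : (AdjoinRoot (fk K f))ˣ ⧸ Sq2 (fk K f)) = ξ ∧
          AdjoinRoot.mk (fk K f) p = u := by
    intro f ξ
    by_cases h1 : ξ ∈ Sel2 (fk K f) ∧ ξ ≠ 1
    · obtain ⟨p, hp⟩ := exists_ntr h1.1 h1.2
      exact ⟨p, fun _ _ => hp⟩
    · exact ⟨0, fun h2 h3 => absurd ⟨h2, h3⟩ h1⟩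
  choose rp hrp using hrep
  -- the bound for a family of finite sets of classes
  have key : ∀ (G : Finset R[X])
      (T : ∀ f : R[X], Finset ((AdjoinRoot (fk K f))ˣ ⧸ Sq2 (fk K f))),
      (∀ f ∈ G, f ∈ F ∧ Irreducible (fk K f)) →
      (∀ f ∈ G, ∀ ξ ∈ T f, ξ ∈ Sel2 (fk K f) ∧ ξ ≠ 1) →
      ((∑ f ∈ G, (T f).card : ℕ) : ℝ) ≤ M := by
    intro G T hG hT
    have hcard : (G.biUnion fun f => (T f).image fun ξ => (f, rp f ξ)).card =
        ∑ f ∈ G, (T f).card := by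
      rw [Finset.card_biUnion]
      · apply Finset.sum_congr rfl
        intro f hf
        apply Finset.card_image_of_injOn
        intro ξ hξ η hη he
        have he2 : rp f ξ = rp f η := (Prod.ext_iff.1 he).2
        obtain ⟨-, u, hu, hu2⟩ := hrp f ξ (hT f hf ξ hξ).1 (hT f hf ξ hξ).2
        obtain ⟨-, v, hv, hv2⟩ := hrp f η (hT f hf η hη).1 (hT f hf η hη).2
        rw [← hu, ← hv]
        rw [he2, hv2] at hu2
        rw [Units.ext hu2]
      · intro f hf f' hf' hne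
        rw [Function.onFun, Finset.disjoint_left]
        intro z hz hz'
        simp only [Finset.mem_image] at hz hz'
        obtain ⟨ξ, -, rfl⟩ := hz
        obtain ⟨η, -, h2⟩ := hz'
        exact hne (Prod.ext_iff.1 h2).1.symm
    rw [← hcard]
    apply h
    · intro z hz
      rw [Finset.mem_biUnion] at hz
      obtain ⟨f, hf, hz⟩ := hz
      rw [Finset.mem_image] at hz
      obtain ⟨ξ, hξ, rfl⟩ := hz
      exact ⟨(hG f hf).1, (hG f hf).2, (hrp f ξ (hT f hf ξ hξ).1 (hT f hf ξ hξ).2).1⟩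
    · intro z hz w hw hzw hs
      rw [Finset.mem_biUnion] at hz hw
      obtain ⟨f, hf, hz⟩ := hz
      obtain ⟨f', hf', hw⟩ := hw
      rw [Finset.mem_image] at hz hw
      obtain ⟨ξ, hξ, rfl⟩ := hz
      obtain ⟨η, hη, rfl⟩ := hw
      simp only at hzw hs
      subst hzw
      obtain ⟨s, hs⟩ := hs
      obtain ⟨-, u, hu, hu2⟩ := hrp f ξ (hT f hf ξ hξ).1 (hT f hf ξ hξ).2
      obtain ⟨-, v, hv, hv2⟩ := hrp f η (hT f hf η hη).1 (hT f hf η hη).2
      have h3 : (u : AdjoinRoot (fk K f)) = v * (AdjoinRoot.mk (fk K f) s) ^ 2 := by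
        rw [← hu2, ← hv2, ← map_pow, ← map_mul, AdjoinRoot.mk_eq_mk]
        exact hs
      have h4 : ξ = η := by rw [← hu, ← hv]; exact mk_eq_of_sq h3
      rw [h4]
  -- finiteness
  have hfin : ∀ f ∈ F, Irreducible (fk K f) → (Sel2 (fk K f)).Finite := by
    intro f hf hi
    by_contra hinf
    have hinf2 : (Sel2 (fk K f) \ {1}).Infinite :=
      Set.Infinite.sdiff hinf (Set.finite_singleton _)
    obtain ⟨S, hS, hSc⟩ := hinf2.exists_subset_card_eq (⌈|M|⌉₊ + 1)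
    have h1 := key {f} (Function.update (fun _ => ∅) f S) (by
        intro f' hf'
        rw [Finset.mem_singleton] at hf'
        subst hf'
        exact ⟨hf, hi⟩) (by
        intro f' hf' ξ hξ
        rw [Finset.mem_singleton] at hf'
        subst hf'
        rw [Function.update_self] at hξ
        have h2 := hS hξ
        exact ⟨h2.1, h2.2⟩)
    rw [Finset.sum_singleton, Function.update_self, hSc] at h1
    push_cast at h1
    have h2 : |M| ≤ (⌈|M|⌉₊ : ℝ) := Nat.le_ceil _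
    have h3 := le_abs_self M
    linarith
  refine ⟨hfin, ?_⟩
  have hGfin : {f ∈ F | Irreducible (fk K f)}.Finite := hF.subset fun f hf => hf.1
  rw [finsum_mem_eq_finite_toFinset_sum _ hGfin]
  set G : Finset R[X] := hGfin.toFinset with hGdef
  have hGm : ∀ f ∈ G, f ∈ F ∧ Irreducible (fk K f) := by
    intro f hf
    exact (hGfin.mem_toFinset).1 hf
  have hT0 : ∀ f : R[X], ∃ T : Finset ((AdjoinRoot (fk K f))ˣ ⧸ Sq2 (fk K f)),
      f ∈ G → (∀ ξ, ξ ∈ T ↔ ξ ∈ Sel2 (fk K f) ∧ ξ ≠ 1) := by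
    intro f
    by_cases hf : f ∈ G
    · have h1 : (Sel2 (fk K f) \ {1}).Finite :=
        (hfin f (hGm f hf).1 (hGm f hf).2).subset Set.sdiff_subset
      refine ⟨h1.toFinset, fun _ ξ => ?_⟩
      rw [h1.mem_toFinset]
      rfl
    · exact ⟨∅, fun h1 => absurd h1 hf⟩
  choose T hT using hT0
  have h1 := key G T hGm (fun f hf ξ hξ => (hT f hf ξ).1 hξ)
  have h2 : ∀ f ∈ G, ((Sel2 (fk K f)).ncard : ℝ) ≤ (T f).card + 1 := by
    intro f hf
    have h3 : Sel2 (fk K f) ⊆ ((insert 1 (T f) : Finset _) : Set _) := by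
      intro ξ hξ
      rw [Finset.coe_insert]
      by_cases h4 : ξ = 1
      · exact Or.inl h4
      · exact Or.inr ((hT f hf ξ).2 ⟨hξ, h4⟩)
    have h4 : (Sel2 (fk K f)).ncard ≤ (insert 1 (T f) : Finset _).card := by
      rw [← Set.ncard_coe_finset]
      exact Set.ncard_le_ncard h3 (Finset.finite_toSet _)
    have h5 := h4.trans (Finset.card_insert_le _ _)
    exact_mod_cast h5
  calc ∑ f ∈ G, ((Sel2 (fk K f)).ncard : ℝ) ≤ ∑ f ∈ G, (((T f).card : ℝ) + 1) :=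
        Finset.sum_le_sum h2
    _ = ((∑ f ∈ G, (T f).card : ℕ) : ℝ) + G.card := by
        rw [Finset.sum_add_distrib]
        push_cast
        simp
    _ ≤ M + F.ncard := by
        apply add_le_add h1
        have h3 : G.card ≤ F.ncard := by
          rw [← Set.ncard_coe_finset]
          apply Set.ncard_le_ncard _ hF
          intro f hf
          exact (hGm f hf).1
        exact_mod_cast h3

end Core

theorem suma : SUMAStmt := by
  intro K _ _ F M hF _ h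
  exact suma_core F M hF fun A h1 h2 => h A ⟨h1, h2⟩

end Pool.NFA
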